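import Pool.Agent.H69.LQ.Lib
import Pool.Agent.H69.LNN.Targets
import Pool.Agent.H69.LNN.Lib

set_option autoImplicit false

/-!
# lnn board, row A5: the coercivity of the form on the sphere
-/

open MeasureTheory Metric Set
open scoped ENNReal

namespace Pool.Agent.H60.LNN

open Pool.Agent.H85.LK (E adm lam Ann)
open Pool.Agent.H69.LQ Pool.Agent.H69.LNN

/-- the potential on the sphere is bounded and measurable -/
theorem BM_VV {N : ℕ} {L K G C₀ : ℝ} {ρ R r₁ : Sp N → ℝ} (hρ : BM ρ) (hR : BM R) (hr : BM r₁)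
    (hδ : ∃ δ : ℝ, 0 < δ ∧ ∀ θ, δ ≤ R θ) : BM (VV L K G C₀ ρ R r₁) := by
  classical
  have h1 := BM_ht (BM_hR hR hδ)
  have h2 : BM (fun θ => be N L * (ht (Pool.Agent.H69.LNN.hR R θ) +
      1 / 1000 * ht (Pool.Agent.H69.LNN.hR R θ) ^ 2) - G * r₁ θ ^ N) :=
    ((h1.add ((h1.pow 2).const_mul _)).const_mul _).sub ((hr.pow N).const_mul _)
  have h3 : BM (fun θ => Real.log (max (ρ θ) (Real.exp K))) := by
    obtain ⟨g1, M, hM⟩ := BM_max hρ (BM_const (Real.exp K))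
    refine ⟨Real.measurable_log.comp g1, |K| + |Real.log M|, fun θ => ?_⟩
    have a0 : Real.exp K ≤ max (ρ θ) (Real.exp K) := le_max_right _ _
    have a1 : K ≤ Real.log (max (ρ θ) (Real.exp K)) := by
      have := Real.log_le_log (Real.exp_pos K) a0
      rwa [Real.log_exp] at this
    have a2 : Real.log (max (ρ θ) (Real.exp K)) ≤ Real.log M :=
      Real.log_le_log ((Real.exp_pos K).trans_le a0) ((le_abs_self _).trans (hM θ))
    rw [abs_le]
    constructor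
    · linarith [neg_abs_le K, abs_nonneg (Real.log M)]
    · linarith [le_abs_self (Real.log M), abs_nonneg K]
  have h4 : BM (fun θ => 1 / 2 * (Real.log (max (ρ θ) (Real.exp K)) + C₀)) :=
    (h3.add (BM_const C₀)).const_mul _
  have h5 := BM_ite (p := fun θ => ρ θ ≤ Real.exp K)
    (measurableSet_le hρ.1 measurable_const) h2 h4
  have h6 : VV L K G C₀ ρ R r₁ = fun θ => if ρ θ ≤ Real.exp K then
      be N L * (ht (Pool.Agent.H69.LNN.hR R θ) +
      1 / 1000 * ht (Pool.Agent.H69.LNN.hR R θ) ^ 2) - G * r₁ θ ^ N else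
      1 / 2 * (Real.log (max (ρ θ) (Real.exp K)) + C₀) := by
    funext θ
    unfold VV
    by_cases h : ρ θ ≤ Real.exp K
    · rw [if_pos h, if_pos h]
    · rw [if_neg h, if_neg h, max_eq_left (not_le.1 h).le]
  rw [h6]
  exact h5

theorem pf_A5 (hPY : T_PY) (hNB : T_NB) (hVP : T_VP) (hVT : T_VT) : T_A5 := by
  intro C₀ K G hC₀ hK hG
  refine ⟨1, le_rfl, fun K₁ hK₁ => ?_⟩
  obtain ⟨κ₁, N₁, hκ₁, hN₁, hVP⟩ := hVP (1 / 1000) (by norm_num) (by norm_num)
  obtain ⟨κ, N₂, hκ, hN₂, hVT⟩ := hVT C₀ K κ₁ hC₀ hK hκ₁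
  refine ⟨κ, max N₁ N₂, hκ, hN₁.trans (le_max_left _ _), ?_⟩
  intro N L ρ R d H r₁ T hN hFz hρ hR hd hH hr hδ hRd hd0 hH0 hρ0 hr0 hκρ hκH hT hT0 hT1
  have hN1 : N₁ ≤ N := (le_max_left _ _).trans hN
  have hN2 : N₂ ≤ N := (le_max_right _ _).trans hN
  have hN3 : 3 ≤ N := hN₁.trans hN1
  obtain ⟨V, hV, hV0, hVe, hV1, hV2⟩ := hVT N L ρ R d H hN2 hFz hρ hR hd hH hδ hRd hd0 hH0 hρ0
    hκρ hκH
  have hvp := hVP N T V hN1 hT hV hV0 hVe
  obtain ⟨-, hb, -⟩ := hNB N L hN3 hFz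
  -- the function on the sphere
  have hTB : BM (rs T 1) := by
    refine BM_cont ?_
    have h1 : Continuous T := hT.continuous
    unfold rs
    exact h1.comp (continuous_subtype_val.const_smul (1 : ℝ))
  have hpy := (hPY N (rs T 1) (by omega) hTB).1
  have hn0 : n0 (rs T 1) = 0 := by
    unfold n0
    rw [hT0]
    norm_num
  have hn1 : n1 (rs T 1) = 0 := by
    unfold n1
    simp [hT1]
  have hn3 : 0 ≤ n3 (rs T 1) := av_sq_nonneg _
  rw [hn0, hn1] at hpy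
  rw [hn1] at hvp
  -- the potential
  have hVV : ∀ θ, VV L K G C₀ ρ R r₁ θ ≤ V θ + 3 / 1000 := by
    intro θ
    unfold VV
    split_ifs with h
    · have e1 := hV1 θ h
      have e2 : ht (Pool.Agent.H69.LNN.hR R θ) ≤ max (Pool.Agent.H69.LNN.hR R θ) 0 :=
        max_le_max_left _ (by norm_num)
      have e3 : 0 ≤ G * r₁ θ ^ N := mul_nonneg hG (pow_nonneg (hr0 θ).1 _)
      have e4 : be N L * ht (Pool.Agent.H69.LNN.hR R θ) ≤
          be N L * max (Pool.Agent.H69.LNN.hR R θ) 0 :=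
        mul_le_mul_of_nonneg_left e2 (by linarith)
      have e5 : 0 ≤ be N L * ht (Pool.Agent.H69.LNN.hR R θ) ^ 2 := by
        have : 0 ≤ be N L := by linarith
        positivity
      nlinarith
    · have e1 := hV2 θ (not_le.1 h)
      linarith
  have hVVB : BM (VV L K G C₀ ρ R r₁) := BM_VV hρ hR hr hδ
  have hT2 : BM (fun θ => rs T 1 θ ^ 2) := hTB.pow 2
  have hav : av (fun θ => VV L K G C₀ ρ R r₁ θ * rs T 1 θ ^ 2) ≤
      av (fun θ => V θ * rs T 1 θ ^ 2) + 3 / 1000 * av (fun θ => rs T 1 θ ^ 2) := by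
    rw [← av_const_mul, ← av_add (hV.mul hT2) (hT2.const_mul _)]
    refine av_mono (hVVB.mul hT2) ((hV.mul hT2).add (hT2.const_mul _)) fun θ => ?_
    have := mul_le_mul_of_nonneg_right (hVV θ) (sq_nonneg (rs T 1 θ))
    linarith
  have hN0 : (0 : ℝ) < N := by
    have : 0 < N := by omega
    exact_mod_cast this
  have hfr : ((N : ℝ) - 1) / N ≤ 1 := by
    rw [div_le_one hN0]
    linarith
  have hsq : 0 ≤ av (fun θ => rs T 1 θ ^ 2) := av_sq_nonneg _
  have hfr2 : ((N : ℝ) - 1) / N * av (fun θ => rs T 1 θ ^ 2) ≤ av (fun θ => rs T 1 θ ^ 2) := by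
    nlinarith
  unfold QQ
  set Gv := av (fun θ : Sp N => Gs T (θ : E N)) / N
  set A := av (fun θ => rs T 1 θ ^ 2)
  linarith

end Pool.Agent.H60.LNN
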