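import Pool.Agent.H69.LQ.Lib
import Pool.Agent.H69.LNN.Targets

/-!
# L2: upper bound for the second eigenvalue of the ball
-/

set_option autoImplicit false

open MeasureTheory Metric Set
open scoped ENNReal

namespace Pool.Agent.H60.LNN

open Pool.Agent.H85.LK (E adm lam Ann)
open Pool.Agent.H69.LQ Pool.Agent.H69.LNN

lemma hasDerivAt_max_sq (y : ℝ) : HasDerivAt (fun y : ℝ => max y 0 ^ 2) (2 * max y 0) y := by
  rcases lt_trichotomy y 0 with h | h | h
  · have h1 : (fun y : ℝ => max y 0 ^ 2) =ᶠ[nhds y] fun _ => 0 := by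
      filter_upwards [Iio_mem_nhds h] with z hz
      rw [max_eq_right (le_of_lt hz)]
      norm_num
    rw [max_eq_right h.le, mul_zero]
    exact (hasDerivAt_const y (0 : ℝ)).congr_of_eventuallyEq h1
  · subst h
    rw [max_self, mul_zero, hasDerivAt_iff_isLittleO]
    simp only [max_self, ne_eq, OfNat.ofNat_ne_zero, not_false_eq_true, zero_pow, sub_zero,
      smul_zero]
    have h1 : (fun x : ℝ => max x 0 ^ 2) =O[nhds 0] fun x : ℝ => x ^ 2 := by
      refine Asymptotics.isBigO_of_le _ fun x => ?_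
      rw [Real.norm_eq_abs, Real.norm_eq_abs, abs_pow, abs_pow]
      refine pow_le_pow_left₀ (abs_nonneg _) ?_ 2
      rcases le_total x 0 with h2 | h2
      · rw [max_eq_right h2, abs_zero]; exact abs_nonneg _
      · rw [max_eq_left h2]
    have h2 : (fun x : ℝ => x ^ 2) =o[nhds 0] fun x : ℝ => x := by
      have := Asymptotics.isLittleO_pow_pow (𝕜 := ℝ) (m := 1) (n := 2) (by norm_num)
      simpa using this
    exact h1.trans_isLittleO h2
  · have h1 : (fun y : ℝ => max y 0 ^ 2) =ᶠ[nhds y] fun y => y ^ 2 := by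
      filter_upwards [Ioi_mem_nhds h] with z hz
      rw [max_eq_left (le_of_lt hz)]
    rw [max_eq_left h.le]
    have h2 : HasDerivAt (fun y : ℝ => y ^ 2) (2 * y) y := by
      simpa using hasDerivAt_pow 2 y
    exact h2.congr_of_eventuallyEq h1

lemma cont_glue {F : ℝ → ℝ} {c : ℝ} (hc : 0 < c) (h0 : ∀ r, r < c → F r = 0)
    (h1 : ContinuousOn F (Ioi 0)) : Continuous F := by
  rw [continuous_iff_continuousAt]
  intro r
  rcases lt_or_ge r c with h | h
  · have h2 : F =ᶠ[nhds r] fun _ => 0 := by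
      filter_upwards [Iio_mem_nhds h] with z hz using h0 z hz
    exact (continuousAt_const).congr h2.symm
  · exact h1.continuousAt (Ioi_mem_nhds (hc.trans_le h))

/-- the cut-off -/
noncomputable def gg (l x : ℝ) : ℝ := max (x + l) 0 ^ 2 * x

/-- its derivative -/
noncomputable def gg' (l x : ℝ) : ℝ := 2 * max (x + l) 0 * x + max (x + l) 0 ^ 2

lemma hasDerivAt_gg (l x : ℝ) : HasDerivAt (gg l) (gg' l x) x := by
  have h1 : HasDerivAt (fun x : ℝ => max (x + l) 0 ^ 2) (2 * max (x + l) 0) x := by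
    have h := (hasDerivAt_max_sq (x + l)).comp x ((hasDerivAt_id' x).add_const l)
    exact (h.congr_deriv (by ring))
  have h2 := h1.mul (hasDerivAt_id' x)
  exact h2.congr_deriv (by unfold gg'; ring)

lemma cont_gg (l : ℝ) : Continuous (gg l) := by unfold gg; fun_prop

lemma cont_gg' (l : ℝ) : Continuous (gg' l) := by unfold gg'; fun_prop

open Classical in
/-- the trial function -/
noncomputable def tf (κ l r : ℝ) : ℝ :=
  if 0 < r then Real.exp (-κ * Real.log r) * gg l (Real.log r) else 0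

open Classical in
/-- its derivative -/
noncomputable def tf' (κ l r : ℝ) : ℝ :=
  if 0 < r then Real.exp (-κ * Real.log r) / r * (-κ * gg l (Real.log r) + gg' l (Real.log r))
  else 0

lemma log_lt_of {l r : ℝ} (h0 : 0 < r) (h : r < Real.exp (-l)) : Real.log r + l < 0 := by
  have := Real.log_lt_log h0 h
  rw [Real.log_exp] at this
  linarith

lemma tf_zero (κ l : ℝ) {r : ℝ} (h : r < Real.exp (-l)) : tf κ l r = 0 := by
  unfold tf gg
  split_ifs with h0
  · rw [max_eq_right (log_lt_of h0 h).le]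
    simp
  · rfl

lemma tf'_zero (κ l : ℝ) {r : ℝ} (h : r < Real.exp (-l)) : tf' κ l r = 0 := by
  unfold tf' gg gg'
  split_ifs with h0
  · rw [max_eq_right (log_lt_of h0 h).le]
    simp
  · rfl

lemma hasDerivAt_tf (κ l r : ℝ) : HasDerivAt (tf κ l) (tf' κ l r) r := by
  rcases lt_or_ge r (Real.exp (-l)) with h | h
  · rw [tf'_zero κ l h]
    have h2 : tf κ l =ᶠ[nhds r] fun _ => 0 := by
      filter_upwards [Iio_mem_nhds h] with z hz using tf_zero κ l hz
    exact (hasDerivAt_const r (0 : ℝ)).congr_of_eventuallyEq h2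
  · have h0 : 0 < r := (Real.exp_pos _).trans_le h
    have h2 : tf κ l =ᶠ[nhds r] fun r => Real.exp (-κ * Real.log r) * gg l (Real.log r) := by
      filter_upwards [Ioi_mem_nhds h0] with z hz
      unfold tf
      rw [if_pos (show 0 < z from hz)]
    have h3 : HasDerivAt (fun r => Real.exp (-κ * Real.log r))
        (Real.exp (-κ * Real.log r) * (-κ * r⁻¹)) r :=
      ((Real.hasDerivAt_log h0.ne').const_mul (-κ)).exp
    have h4 : HasDerivAt (fun r => gg l (Real.log r)) (gg' l (Real.log r) * r⁻¹) r :=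
      (hasDerivAt_gg l (Real.log r)).comp r (Real.hasDerivAt_log h0.ne')
    have h5 := (h3.mul h4).congr_of_eventuallyEq h2
    refine h5.congr_deriv ?_
    unfold tf'
    rw [if_pos h0]
    field_simp
    try ring

lemma cont_tf' (κ l : ℝ) : Continuous (tf' κ l) := by
  refine cont_glue (Real.exp_pos (-l)) (fun r hr => tf'_zero κ l hr) ?_
  have h : ContinuousOn (fun r => Real.exp (-κ * Real.log r) / r *
      (-κ * gg l (Real.log r) + gg' l (Real.log r))) (Ioi 0) := by
    have hl : ContinuousOn Real.log (Ioi 0) :=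
      Real.continuousOn_log.mono fun r hr => (ne_of_gt hr)
    have h1 := (cont_gg l).comp_continuousOn hl
    have h2 := (cont_gg' l).comp_continuousOn hl
    refine ((Real.continuous_exp.comp_continuousOn (continuousOn_const.mul hl)).div
      continuousOn_id fun r hr => ne_of_gt hr).mul ((continuousOn_const.mul h1).add h2)
  refine h.congr fun r hr => ?_
  unfold tf'
  rw [if_pos (show 0 < r from hr)]

lemma C1_tf (κ l : ℝ) : C1 (tf κ l) (tf' κ l) := ⟨hasDerivAt_tf κ l, cont_tf' κ l⟩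

lemma cont_tf (κ l : ℝ) : Continuous (tf κ l) :=
  continuous_iff_continuousAt.2 fun r => (hasDerivAt_tf κ l r).continuousAt

lemma gx_tf (N : ℕ) (l x : ℝ) : gx N (tf ((N : ℝ) / 2 - 1) l) x = gg l x := by
  unfold gx tf
  rw [if_pos (Real.exp_pos x), Real.log_exp, ← mul_assoc, ← Real.exp_add]
  have : ((N : ℝ) / 2 - 1) * x + -((N : ℝ) / 2 - 1) * x = 0 := by ring
  rw [this, Real.exp_zero, one_mul]

lemma gx'_tf (N : ℕ) (l x : ℝ) :
    gx' N (tf ((N : ℝ) / 2 - 1) l) (tf' ((N : ℝ) / 2 - 1) l) x = gg' l x := by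
  unfold gx' tf tf'
  rw [if_pos (Real.exp_pos x), if_pos (Real.exp_pos x), Real.log_exp]
  have h0 := Real.exp_pos x
  have h1 : Real.exp (((N : ℝ) / 2 - 1) * x) * Real.exp (-((N : ℝ) / 2 - 1) * x) = 1 := by
    rw [← Real.exp_add, show ((N : ℝ) / 2 - 1) * x + -((N : ℝ) / 2 - 1) * x = 0 by ring,
      Real.exp_zero]
  have h2 : Real.exp (((N : ℝ) / 2 - 1) * x) *
      (((N : ℝ) / 2 - 1) * (Real.exp (-((N : ℝ) / 2 - 1) * x) * gg l x) +
        Real.exp x * (Real.exp (-((N : ℝ) / 2 - 1) * x) / Real.exp x *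
          (-((N : ℝ) / 2 - 1) * gg l x + gg' l x))) =
      (Real.exp (((N : ℝ) / 2 - 1) * x) * Real.exp (-((N : ℝ) / 2 - 1) * x)) * gg' l x := by
    field_simp
    ring
  rw [h2, h1, one_mul]

lemma int_poly (l k : ℝ) (hl : 0 ≤ l) :
    ∫ x in (-l)..0, (gg' l x ^ 2 + k * gg l x ^ 2) = 2 * l ^ 5 / 15 + k * (l ^ 7 / 105) := by
  have h1 : ∫ x in (-l)..0, (gg' l x ^ 2 + k * gg l x ^ 2) =
      ∫ x in (-l)..0, ((3 * (x + l) ^ 2 - 2 * l * (x + l)) ^ 2 +
        k * ((x + l) ^ 2 * ((x + l) - l)) ^ 2) := by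
    refine intervalIntegral.integral_congr fun x hx => ?_
    rw [uIcc_of_le (by linarith)] at hx
    simp only [gg, gg']
    rw [max_eq_left (by linarith [hx.1])]
    ring
  have h2 := intervalIntegral.integral_comp_add_right (a := -l) (b := 0)
    (fun y : ℝ => (3 * y ^ 2 - 2 * l * y) ^ 2 + k * (y ^ 2 * (y - l)) ^ 2) l
  rw [h1, h2, neg_add_cancel, zero_add]
  have h3 : ∀ y ∈ uIcc 0 l, HasDerivAt (fun y : ℝ => 9 * y ^ 5 / 5 - 3 * l * y ^ 4 +
      4 * l ^ 2 * y ^ 3 / 3 + k * (y ^ 7 / 7 - l * y ^ 6 / 3 + l ^ 2 * y ^ 5 / 5))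
      ((3 * y ^ 2 - 2 * l * y) ^ 2 + k * (y ^ 2 * (y - l)) ^ 2) y := by
    intro y _
    have e5 := hasDerivAt_pow 5 y
    have e4 := hasDerivAt_pow 4 y
    have e3 := hasDerivAt_pow 3 y
    have e7 := hasDerivAt_pow 7 y
    have e6 := hasDerivAt_pow 6 y
    have := ((((e5.const_mul 9).div_const 5).sub (e4.const_mul (3 * l))).add
      ((e3.const_mul (4 * l ^ 2)).div_const 3)).add
      ((((e7.div_const 7).sub ((e6.const_mul l).div_const 3)).add
        ((e5.const_mul (l ^ 2)).div_const 5)).const_mul k)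
    exact this.congr_deriv (by push_cast; ring)
  rw [intervalIntegral.integral_eq_sub_of_hasDerivAt h3
    (by apply Continuous.intervalIntegrable; fun_prop)]
  ring

theorem pf_L2 (hSI : T_SI) (hCV : T_CV) : T_L2 := by
  refine ⟨284, 4, by norm_num, by norm_num, ?_⟩
  intro N L hN hFz
  have hN3 : 3 ≤ N := by omega
  have hNr : (4 : ℝ) ≤ N := by exact_mod_cast hN
  have hN0 : (0 : ℝ) < N := by linarith
  set s := Real.sqrt N with hs
  have hs2 : s * s = N := Real.mul_self_sqrt hN0.le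
  have hs0 : 0 < s := Real.sqrt_pos.2 hN0
  have hs4 : 2 ≤ s := by
    rw [hs]
    exact Real.le_sqrt_of_sq_le (by linarith)
  set l := 1 / s with hl
  have hl0 : 0 < l := by positivity
  set κ := (N : ℝ) / 2 - 1 with hκ
  set c := Real.exp (-l) with hc
  have hc0 : 0 < c := Real.exp_pos _
  have hc1 : c ≤ 1 := by
    rw [hc, Real.exp_le_one_iff]
    linarith
  have hC1 := C1_tf κ l
  have hf0 : tf κ l 0 = 0 := by
    unfold tf
    simp
  have hf1 : tf κ l 1 = 0 := by
    unfold tf gg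
    simp
  have hsi := hSI N L 1 (tf κ l) (tf' κ l) hN3 hFz one_pos hC1 hf0 hf1
  obtain ⟨-, -, hcv, -⟩ := hCV N L c 1 (tf κ l) (tf' κ l) hN3 hc0 hc1 hC1
  -- continuity
  have hF1c : Continuous fun r : ℝ => r ^ (N - 1) * tf κ l r ^ 2 :=
    (continuous_pow _).mul ((cont_tf κ l).pow 2)
  have hF2c : Continuous fun r : ℝ => r ^ (N - 1) *
      (tf' κ l r ^ 2 + ((N : ℝ) - 1) / r ^ 2 * tf κ l r ^ 2) := by
    refine cont_glue hc0 (fun r hr => ?_) ?_
    · rw [tf_zero κ l hr, tf'_zero κ l hr]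
      ring
    · refine ContinuousOn.mul (continuous_pow _).continuousOn (ContinuousOn.add
        ((cont_tf' κ l).pow 2).continuousOn (ContinuousOn.mul (ContinuousOn.div
          continuousOn_const (continuous_pow 2).continuousOn fun r hr => ?_)
          ((cont_tf κ l).pow 2).continuousOn))
      exact pow_ne_zero 2 (ne_of_gt hr)
  have hz1 : ∫ r in (0 : ℝ)..c, r ^ (N - 1) * tf κ l r ^ 2 = 0 := by
    rw [intervalIntegral.integral_of_le hc0.le, integral_Ioc_eq_integral_Ioo]
    refine setIntegral_eq_zero_of_forall_eq_zero fun r hr => ?_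
    rw [tf_zero κ l hr.2]
    ring
  have hz2 : ∫ r in (0 : ℝ)..c, r ^ (N - 1) *
      (tf' κ l r ^ 2 + ((N : ℝ) - 1) / r ^ 2 * tf κ l r ^ 2) = 0 := by
    rw [intervalIntegral.integral_of_le hc0.le, integral_Ioc_eq_integral_Ioo]
    refine setIntegral_eq_zero_of_forall_eq_zero fun r hr => ?_
    rw [tf_zero κ l hr.2, tf'_zero κ l hr.2]
    ring
  have hs1 := intervalIntegral.integral_add_adjacent_intervals
    (hF1c.intervalIntegrable (μ := volume) 0 c) (hF1c.intervalIntegrable (μ := volume) c 1)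
  have hs3 := intervalIntegral.integral_add_adjacent_intervals
    (hF2c.intervalIntegrable (μ := volume) 0 c) (hF2c.intervalIntegrable (μ := volume) c 1)
  rw [hz1, zero_add] at hs1
  rw [hz2, zero_add] at hs3
  rw [← hs1, ← hs3] at hsi
  have hdiff : ∫ r in c..1, r ^ (N - 1) * (tf' κ l r ^ 2 +
      (((N : ℝ) - 1) / r ^ 2 - L) * tf κ l r ^ 2) =
      (∫ r in c..1, r ^ (N - 1) * (tf' κ l r ^ 2 + ((N : ℝ) - 1) / r ^ 2 * tf κ l r ^ 2)) -
        L * ∫ r in c..1, r ^ (N - 1) * tf κ l r ^ 2 := by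
    rw [← intervalIntegral.integral_const_mul, ← intervalIntegral.integral_sub
      (hF2c.intervalIntegrable _ _) ((hF1c.const_mul L).intervalIntegrable _ _)]
    refine intervalIntegral.integral_congr fun r _ => ?_
    ring
  rw [hdiff] at hcv
  have hlogc : Real.log c = -l := Real.log_exp _
  rw [Real.log_one, hlogc] at hcv
  simp only [hκ, gx_tf, gx'_tf] at hcv
  have hg0 : gg l 0 = 0 := by unfold gg; ring
  have hgl : gg l (-l) = 0 := by
    unfold gg
    rw [neg_add_cancel, max_self]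
    ring
  rw [hg0, hgl] at hcv
  have hmono : ∫ x in (-l)..0, (gg' l x ^ 2 + qx N L x * gg l x ^ 2) ≤
      ∫ x in (-l)..0, (gg' l x ^ 2 + ((N : ℝ) ^ 2 / 4 - L * Real.exp (-(2 * l))) *
        gg l x ^ 2) := by
    have hq : Continuous (qx N L) := by unfold qx; fun_prop
    refine intervalIntegral.integral_mono_on (by linarith)
      ((((cont_gg' l).pow 2).add (hq.mul ((cont_gg l).pow 2))).intervalIntegrable _ _)
      ((((cont_gg' l).pow 2).add (((cont_gg l).pow 2).const_mul _)).intervalIntegrable _ _) ?_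
    intro x hx
    have h1 : Real.exp (-(2 * l)) ≤ Real.exp (2 * x) := Real.exp_le_exp.2 (by linarith [hx.1])
    have h2 : qx N L x ≤ (N : ℝ) ^ 2 / 4 - L * Real.exp (-(2 * l)) := by
      unfold qx
      have := mul_le_mul_of_nonneg_left h1 hFz.pos.le
      linarith
    have := mul_le_mul_of_nonneg_right h2 (sq_nonneg (gg l x))
    linarith
  rw [int_poly l _ hl0.le] at hmono
  have hmain : 0 ≤ 2 * l ^ 5 / 15 + ((N : ℝ) ^ 2 / 4 - L * Real.exp (-(2 * l))) *
      (l ^ 7 / 105) := by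
    have : 0 ≤ ∫ x in (-l)..0, (gg' l x ^ 2 + qx N L x * gg l x ^ 2) := by
      have h1 : L / 1 ^ 2 = L := by norm_num
      rw [h1] at hsi
      have h2 : ((N : ℝ) / 2 - 1) * ((0 : ℝ) ^ 2 - 0 ^ 2) = 0 := by ring
      rw [h2, sub_zero] at hcv
      rw [← hcv]
      linarith
    linarith
  have hl2 : l ^ 2 * N = 1 := by
    rw [hl, ← hs2]
    field_simp
  have hbd : L * Real.exp (-(2 * l)) ≤ (N : ℝ) ^ 2 / 4 + 14 * N := by
    have h5 : 0 < l ^ 7 := by positivity
    by_contra hcon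
    push Not at hcon
    have h6 : ((N : ℝ) ^ 2 / 4 - L * Real.exp (-(2 * l))) * (l ^ 7 / 105) <
        (-(14 * N)) * (l ^ 7 / 105) :=
      mul_lt_mul_of_pos_right (by linarith) (by positivity)
    have h7 : (-(14 * N)) * (l ^ 7 / 105) = -(2 * l ^ 5 / 15) := by
      have : l ^ 7 * N = l ^ 5 := by
        calc l ^ 7 * N = l ^ 5 * (l ^ 2 * N) := by ring
          _ = l ^ 5 := by rw [hl2, mul_one]
      calc (-(14 * N)) * (l ^ 7 / 105) = -(14 / 105) * (l ^ 7 * N) := by ring
        _ = -(2 * l ^ 5 / 15) := by rw [this]; ring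
    linarith
  have he : Real.exp (2 * l) ≤ 1 + 4 * l := by
    have hle : |2 * l| ≤ 1 := by
      rw [abs_of_pos (by positivity), hl]
      rw [mul_one_div, div_le_one hs0]
      exact hs4
    have := Real.abs_exp_sub_one_le hle
    rw [abs_of_pos (by positivity : (0 : ℝ) < 2 * l)] at this
    have := (abs_le.1 this).2
    linarith
  have hL : L ≤ (1 + 4 * l) * ((N : ℝ) ^ 2 / 4 + 14 * N) := by
    have h8 : L = Real.exp (2 * l) * (L * Real.exp (-(2 * l))) := by
      rw [mul_comm L, ← mul_assoc, ← Real.exp_add, add_neg_cancel, Real.exp_zero, one_mul]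
    rw [h8]
    exact mul_le_mul he hbd (mul_nonneg hFz.pos.le (Real.exp_pos _).le) (by positivity)
  refine hL.trans ?_
  have hNl : 1 / (N : ℝ) ≤ l := by
    rw [hl]
    apply one_div_le_one_div_of_le hs0
    rw [← hs2]
    nlinarith
  have h9 : 14 * (N : ℝ) = (N : ℝ) ^ 2 / 4 * (56 * (1 / N)) := by
    field_simp
    ring
  have h10 : (N : ℝ) ^ 2 / 4 + 14 * N ≤ (N : ℝ) ^ 2 / 4 * (1 + 56 * l) := by
    rw [h9]
    have : (N : ℝ) ^ 2 / 4 * (56 * (1 / N)) ≤ (N : ℝ) ^ 2 / 4 * (56 * l) :=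
      mul_le_mul_of_nonneg_left (by linarith) (by positivity)
    linarith
  have hl1 : l ≤ 1 := by
    rw [hl, div_le_one hs0]
    linarith
  calc (1 + 4 * l) * ((N : ℝ) ^ 2 / 4 + 14 * N)
      ≤ (1 + 4 * l) * ((N : ℝ) ^ 2 / 4 * (1 + 56 * l)) :=
        mul_le_mul_of_nonneg_left h10 (by positivity)
    _ = (N : ℝ) ^ 2 / 4 * (1 + 60 * l + 224 * (l * l)) := by ring
    _ ≤ (N : ℝ) ^ 2 / 4 * (1 + 284 / s) := by
        refine mul_le_mul_of_nonneg_left ?_ (by positivity)
        have h11 : l * l ≤ l := by nlinarith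
        have h12 : 284 / s = 284 * l := by rw [hl]; ring
        rw [h12]
        linarith

end Pool.Agent.H60.LNN
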