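import Pool.Agent.H69.LQ.Lib
import Pool.Agent.H69.LNN.Targets

/-!
# VS: the missing part of the unit ball
-/

set_option autoImplicit false

open MeasureTheory Metric Set
open scoped ENNReal

namespace Pool.Agent.H60.LNN

open Pool.Agent.H85.LK (E adm lam Ann)
open Pool.Agent.H69.LQ Pool.Agent.H69.LNN

variable {N : ℕ}

lemma BM_ind {F : Sp N → ℝ} (hF : BM F) {s : Set (Sp N)} (hs : MeasurableSet s) :
    BM (s.indicator F) := by
  obtain ⟨h1, M, h2⟩ := hF
  refine ⟨h1.indicator hs, M, fun θ => ?_⟩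
  by_cases h : θ ∈ s
  · rw [indicator_of_mem h]; exact h2 θ
  · rw [indicator_of_notMem h, abs_zero]; exact (abs_nonneg _).trans (h2 θ)

/-- integral of a bounded function supported in an interval -/
lemma ray_le {m : ℕ} (f : ℝ → ℝ) (hf0 : ∀ r, 0 ≤ f r) (A B : Set ℝ) {a₁ b₁ a₂ b₂ : ℝ}
    (hA : A = Ioc a₁ b₁) (hB : B = Icc a₂ b₂) (h1 : 0 ≤ a₁) (h2 : 0 ≤ a₂) (h3 : a₁ ≤ b₁)
    (h4 : a₂ ≤ b₂)
    (hf : ∀ r, 0 < r → f r ≤ A.indicator (fun r => r ^ m) r + B.indicator (fun r => r ^ m) r) :
    ((m : ℝ) + 1) * ∫ r in Ioi (0 : ℝ), f r ≤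
      b₁ ^ (m + 1) - a₁ ^ (m + 1) + (b₂ ^ (m + 1) - a₂ ^ (m + 1)) := by
  have hc : Continuous fun r : ℝ => r ^ m := continuous_pow m
  have iA : Integrable (A.indicator fun r : ℝ => r ^ m) := by
    rw [hA, integrable_indicator_iff measurableSet_Ioc]
    exact (hc.integrableOn_Icc (a := a₁) (b := b₁)).mono_set Ioc_subset_Icc_self
  have iB : Integrable (B.indicator fun r : ℝ => r ^ m) := by
    rw [hB, integrable_indicator_iff measurableSet_Icc]
    exact hc.integrableOn_Icc
  have e1 : ∫ r in Ioi (0 : ℝ), f r ≤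
      ∫ r, (A.indicator (fun r => r ^ m) r + B.indicator (fun r => r ^ m) r) := by
    rw [← integral_indicator measurableSet_Ioi]
    refine integral_mono_of_nonneg (Filter.Eventually.of_forall fun r => ?_) (iA.add iB)
      (Filter.Eventually.of_forall fun r => ?_)
    · exact indicator_nonneg (fun r _ => hf0 r) r
    · change (Ioi (0 : ℝ)).indicator f r ≤ _
      by_cases h : r ∈ Ioi (0 : ℝ)
      · rw [indicator_of_mem h]; exact hf r h
      · rw [indicator_of_notMem h]
        refine add_nonneg (indicator_nonneg (fun r hr => ?_) r)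
          (indicator_nonneg (fun r hr => ?_) r)
        · rw [hA] at hr
          exact pow_nonneg (h1.trans hr.1.le) m
        · rw [hB] at hr
          exact pow_nonneg (h2.trans hr.1) m
  have e2 : ∫ r, A.indicator (fun r : ℝ => r ^ m) r = (b₁ ^ (m + 1) - a₁ ^ (m + 1)) / (m + 1) := by
    rw [hA, integral_indicator measurableSet_Ioc, ← intervalIntegral.integral_of_le h3,
      integral_pow]
  have e3 : ∫ r, B.indicator (fun r : ℝ => r ^ m) r = (b₂ ^ (m + 1) - a₂ ^ (m + 1)) / (m + 1) := by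
    rw [hB, integral_indicator measurableSet_Icc, integral_Icc_eq_integral_Ioc,
      ← intervalIntegral.integral_of_le h4, integral_pow]
  rw [integral_add iA iB, e2, e3] at e1
  have hm : (0 : ℝ) < (m : ℝ) + 1 := by positivity
  calc ((m : ℝ) + 1) * ∫ r in Ioi (0 : ℝ), f r
      ≤ ((m : ℝ) + 1) * ((b₁ ^ (m + 1) - a₁ ^ (m + 1)) / (m + 1) +
        (b₂ ^ (m + 1) - a₂ ^ (m + 1)) / (m + 1)) := mul_le_mul_of_nonneg_left e1 hm.le
    _ = _ := by field_simp

theorem pf_VS (hMP : T_MP) (hMO : T_MO) (hVR : T_VR) : T_VS := by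
  intro N Ω a K R r₁ hN hΩ hfin ha ha1 hK hE
  have hN2 : 2 ≤ N := by omega
  obtain ⟨hprob, har, hareq, hpol⟩ := hMP N hN2
  obtain ⟨bρ, bR, br, bd, bH, hθ⟩ := hVR N Ω a R r₁ hN hΩ ha ha1 hE
  have hone : av (fun _ : Sp N => (1 : ℝ)) = 1 := (hMO N hN2).1
  have hbN : 1 ≤ bb N := by
    unfold bb
    have : 0 ≤ 20 / Real.sqrt N := by positivity
    linarith
  -- the measurable set
  have hGm : MeasurableSet (Gk K (rho Ω)) := measurableSet_le bρ.1 measurable_const
  have hGmc : MeasurableSet (Gk K (rho Ω))ᶜ := hGm.compl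
  -- the function on the ray
  set f : Sp N → ℝ → ℝ := fun θ r =>
    r ^ (N - 1) * (ball (0 : E N) 1 \ Ω).indicator (fun _ => (1 : ℝ)) (r • (θ : E N)) with hfdef
  set m : Sp N → ℝ := fun θ => ∫ r in Ioi (0 : ℝ), f θ r with hmdef
  have hmeas : MeasurableSet (ball (0 : E N) 1 \ Ω) := measurableSet_ball.diff hΩ.measurableSet
  have hint : Integrable ((ball (0 : E N) 1 \ Ω).indicator fun _ : E N => (1 : ℝ)) := by
    rw [integrable_indicator_iff hmeas]
    refine integrableOn_const ?_
    exact ((measure_mono diff_subset).trans_lt measure_ball_lt_top).ne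
  obtain ⟨-, hmi, hvol⟩ := hpol _ hint
  have hvol2 : volume.real (ball (0 : E N) 1 \ Ω) = vB N * av (fun θ => N * m θ) := by
    have h1 : ∫ x, (ball (0 : E N) 1 \ Ω).indicator (fun _ : E N => (1 : ℝ)) x =
        volume.real (ball (0 : E N) 1 \ Ω) := by
      rw [integral_indicator hmeas]
      simp
    rw [← h1, hvol, hareq, av_const_mul]
    unfold vB
    ring
  have hmi2 : Integrable (fun θ => (N : ℝ) * m θ) (mS N) := hmi.const_mul _
  have hNm : ((N - 1 : ℕ) : ℝ) + 1 = N := by
    rw [Nat.cast_sub (by omega)]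
    push_cast
    ring
  have hNs : N - 1 + 1 = N := by omega
  have hf0 : ∀ (θ : Sp N) (r : ℝ), 0 < r → 0 ≤ f θ r := by
    intro θ r hr
    exact mul_nonneg (pow_nonneg hr.le _) (indicator_nonneg (fun _ _ => zero_le_one) _)
  -- replace the function on the negative half line
  have hmf : ∀ θ, m θ = ∫ r in Ioi (0 : ℝ), max (f θ r) 0 := by
    intro θ
    refine setIntegral_congr_fun measurableSet_Ioi fun r hr => ?_
    exact (max_eq_left (hf0 θ r hr)).symm
  have hm1 : ∀ θ, (N : ℝ) * m θ ≤ 1 := by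
    intro θ
    have h := ray_le (m := N - 1) (fun r => max (f θ r) 0) (fun r => le_max_right _ _)
      (Ioc 0 1) (Icc 0 0) rfl rfl le_rfl le_rfl zero_le_one le_rfl (by
        intro r hr
        rw [max_eq_left (hf0 θ r hr)]
        have hB : 0 ≤ (Icc (0 : ℝ) 0).indicator (fun r : ℝ => r ^ (N - 1)) r :=
          indicator_nonneg (fun r hr => pow_nonneg hr.1 _) r
        by_cases h : r • (θ : E N) ∈ ball (0 : E N) 1 \ Ω
        · have h2 : r ∈ Ioc (0 : ℝ) 1 := by
            have h3 := h.1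
            rw [mem_ball_zero_iff, norm_smul_sp, abs_of_pos hr] at h3
            exact ⟨hr, h3.le⟩
          simp only [hfdef]
          rw [indicator_of_mem h, indicator_of_mem h2, mul_one]
          linarith
        · simp only [hfdef]
          rw [indicator_of_notMem h, mul_zero]
          exact add_nonneg (indicator_nonneg (fun r hr => pow_nonneg hr.1.le _) r) hB)
    rw [hNm, hNs, ← hmf θ] at h
    simp only [one_pow, sub_self, add_zero] at h
    have h0 : (0 : ℝ) ≤ 0 ^ N := pow_nonneg le_rfl N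
    linarith
  have hm2 : ∀ θ, (N : ℝ) * m θ ≤ r₁ θ ^ N + max (1 - R θ ^ N) 0 := by
    intro θ
    have hRa := hE.lo θ
    have hR0 : 0 < R θ := ha.trans_le hRa
    have h := ray_le (m := N - 1) (fun r => max (f θ r) 0) (fun r => le_max_right _ _)
      (Ioc 0 (r₁ θ)) (Icc (min (R θ) 1) 1) rfl rfl le_rfl (le_min hR0.le zero_le_one)
      (hE.nn θ) (min_le_right _ _) (by
        intro r hr
        rw [max_eq_left (hf0 θ r hr)]
        have hA' : 0 ≤ (Ioc 0 (r₁ θ)).indicator (fun r : ℝ => r ^ (N - 1)) r :=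
          indicator_nonneg (fun r hr => pow_nonneg hr.1.le _) r
        have hB' : 0 ≤ (Icc (min (R θ) 1) 1).indicator (fun r : ℝ => r ^ (N - 1)) r :=
          indicator_nonneg (fun r hr => pow_nonneg ((le_min hR0.le zero_le_one).trans hr.1) _) r
        by_cases h : r • (θ : E N) ∈ ball (0 : E N) 1 \ Ω
        · have h3 := h.1
          rw [mem_ball_zero_iff, norm_smul_sp, abs_of_pos hr] at h3
          simp only [hfdef]
          rw [indicator_of_mem h, mul_one]
          rcases le_or_gt r (r₁ θ) with h4 | h4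
          · rw [indicator_of_mem (show r ∈ Ioc 0 (r₁ θ) from ⟨hr, h4⟩)]
            linarith
          · have h5 : a ≤ r := by
              by_contra h6
              exact h.2 (hE.full θ r h4 (not_le.1 h6))
            have h7 : R θ ≤ r := by
              by_contra h6
              exact h.2 (hE.ins θ r h5 (not_le.1 h6))
            have hmem : r ∈ Icc (min (R θ) 1) 1 := ⟨(min_le_left _ _).trans h7, h3.le⟩
            rw [indicator_of_mem hmem]
            linarith
        · simp only [hfdef]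
          rw [indicator_of_notMem h, mul_zero]
          exact add_nonneg hA' hB')
    rw [hNm, hNs, ← hmf θ] at h
    have h0 : (0 : ℝ) ^ N = 0 := zero_pow (by omega)
    rw [h0, sub_zero, one_pow] at h
    refine h.trans (add_le_add le_rfl ?_)
    rcases le_total (R θ) 1 with h1 | h1
    · rw [min_eq_left h1]; exact le_max_left _ _
    · rw [min_eq_right h1, one_pow, sub_self]; exact le_max_right _ _
  -- the truncated exponent
  have hRm : Measurable (fun θ => hR R θ) := by
    unfold hR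
    exact (Real.measurable_log.comp hE.measR).const_mul _
  have bM : BM (fun θ => min |hR R θ| 1) := by
    refine ⟨hRm.norm.min measurable_const, 1, fun θ => ?_⟩
    rw [abs_of_nonneg (le_min (abs_nonneg _) zero_le_one)]
    exact min_le_right _ _
  have bM2 : BM (fun θ => min (hR R θ ^ 2) 1) := by
    refine ⟨(hRm.pow_const 2).min measurable_const, 1, fun θ => ?_⟩
    rw [abs_of_nonneg (le_min (sq_nonneg _) zero_le_one)]
    exact min_le_right _ _
  have hRN : ∀ θ, max (1 - R θ ^ N) 0 ≤ min |hR R θ| 1 := by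
    intro θ
    have hR0 : 0 < R θ := ha.trans_le (hE.lo θ)
    have h1 : R θ ^ N = Real.exp (hR R θ) := by
      unfold hR
      rw [mul_comm, Real.exp_mul, Real.exp_log hR0, Real.rpow_natCast]
    rw [h1]
    have h2 := Real.add_one_le_exp (hR R θ)
    have h3 := Real.exp_pos (hR R θ)
    have h4 := neg_le_abs (hR R θ)
    refine max_le (le_min ?_ ?_) (le_min (abs_nonneg _) zero_le_one) <;> linarith
  have hρ0 : ∀ θ, 0 ≤ rho Ω θ := fun θ => (hθ θ).2.1.trans (hθ θ).2.2.1
  -- the bound
  set Bd : Sp N → ℝ := fun θ =>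
    ((Gk K (rho Ω)).indicator (fun θ => r₁ θ ^ N) θ +
      (Gk K (rho Ω)).indicator (fun θ => min |hR R θ| 1) θ) +
      (Gk K (rho Ω))ᶜ.indicator (rho Ω) θ with hBd
  have bI1 : BM ((Gk K (rho Ω)).indicator fun θ => r₁ θ ^ N) := BM_ind (br.pow N) hGm
  have bI2 : BM ((Gk K (rho Ω)).indicator fun θ => min |hR R θ| 1) := BM_ind bM hGm
  have bI3 : BM ((Gk K (rho Ω))ᶜ.indicator (rho Ω)) := BM_ind bρ hGmc
  have hle : ∀ θ, (N : ℝ) * m θ ≤ Bd θ := by
    intro θ
    simp only [hBd]
    by_cases h : θ ∈ Gk K (rho Ω)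
    · rw [indicator_of_mem h, indicator_of_mem h, indicator_of_notMem (by simpa using h),
        add_zero]
      exact (hm2 θ).trans (add_le_add le_rfl (hRN θ))
    · rw [indicator_of_notMem h, indicator_of_notMem h, indicator_of_mem (by simpa using h),
        zero_add, zero_add]
      have h1 : Real.exp K < rho Ω θ := not_le.1 h
      have h2 : 1 ≤ Real.exp K := Real.one_le_exp (by linarith)
      linarith [hm1 θ]
  have hav : av (fun θ => (N : ℝ) * m θ) ≤ av Bd :=
    integral_mono hmi2 ((bI1.add bI2).add bI3).integrable hle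
  have hBd2 : av Bd = av ((Gk K (rho Ω)).indicator fun θ => r₁ θ ^ N) +
      av ((Gk K (rho Ω)).indicator fun θ => min |hR R θ| 1) +
      av ((Gk K (rho Ω))ᶜ.indicator (rho Ω)) := by
    simp only [hBd]
    rw [av_add (bI1.add bI2) bI3, av_add bI1 bI2]
  -- Cauchy-Schwarz
  have hcs := av_cs bI2 (BM_const (N := N) 1)
  have hsq : (fun θ => (Gk K (rho Ω)).indicator (fun θ => min |hR R θ| 1) θ ^ 2) =
      (Gk K (rho Ω)).indicator fun θ => min (hR R θ ^ 2) 1 := by
    funext θ
    by_cases h : θ ∈ Gk K (rho Ω)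
    · rw [indicator_of_mem h, indicator_of_mem h]
      rcases le_total |hR R θ| 1 with h1 | h1
      · rw [min_eq_left h1, sq_abs, min_eq_left]
        rw [← sq_abs]
        exact pow_le_one₀ (abs_nonneg _) h1
      · rw [min_eq_right h1, one_pow, min_eq_right]
        rw [← sq_abs]
        exact one_le_pow₀ h1
    · rw [indicator_of_notMem h, indicator_of_notMem h]
      norm_num
  simp only [mul_one, one_pow] at hcs
  rw [hsq, hone, mul_one] at hcs
  have hd0 : 0 ≤ av ((Gk K (rho Ω)).indicator (ds Ω R)) :=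
    av_nonneg fun θ => indicator_nonneg (fun θ _ => (hθ θ).2.1) θ
  have hρa : 0 ≤ av ((Gk K (rho Ω))ᶜ.indicator (rho Ω)) :=
    av_nonneg fun θ => indicator_nonneg (fun θ _ => hρ0 θ) θ
  have hmin0 : 0 ≤ av ((Gk K (rho Ω)).indicator fun θ => min (hR R θ ^ 2) 1) :=
    av_nonneg fun θ => indicator_nonneg (fun θ _ => le_min (sq_nonneg _) zero_le_one) θ
  have hD1 : av ((Gk K (rho Ω)).indicator fun θ => min (hR R θ ^ 2) 1) ≤
      Dst K (rho Ω) R (ds Ω R) := by
    unfold Dst
    linarith
  have hD2 : av ((Gk K (rho Ω))ᶜ.indicator (rho Ω)) ≤ Dst K (rho Ω) R (ds Ω R) := by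
    unfold Dst
    linarith
  have hD3 : av ((Gk K (rho Ω)).indicator fun θ => min |hR R θ| 1) ≤
      Real.sqrt (Dst K (rho Ω) R (ds Ω R)) :=
    Real.le_sqrt_of_sq_le (hcs.trans hD1)
  rw [hvol2]
  have hvB : 0 ≤ vB N := measureReal_nonneg
  refine mul_le_mul_of_nonneg_left ?_ hvB
  rw [hBd2] at hav
  linarith

end Pool.Agent.H60.LNN
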