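import Pool.Agent.H69.LQ.Lib
import Pool.Agent.H69.LNN.Targets

/-!
# XN: mixed terms on the sphere
-/

set_option autoImplicit false

open MeasureTheory Metric Set
open scoped ENNReal

namespace Pool.Agent.H60.LNN

open Pool.Agent.H85.LK (E adm lam Ann)
open Pool.Agent.H69.LQ Pool.Agent.H69.LNN

variable {N : ℕ}

lemma av_expand {H G : Sp N → ℝ} (hH : BM H) (hG : BM G) (hr : BM (r3 G)) :
    av (fun θ => H θ * G θ) = av G * av H + (∑ j, c1 G j * av (fun θ => H θ * (θ : E N) j)) +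
      (∑ j, ∑ k, c2 G j k * av (fun θ => H θ * ((θ : E N) j * (θ : E N) k))) +
      av (fun θ => H θ * r3 G θ) := by
  have h1 : ∀ j : Fin N, BM (fun θ : Sp N => c1 G j * (H θ * (θ : E N) j)) := fun j =>
    (hH.mul (BM_coord j)).const_mul _
  have h2 : ∀ j k : Fin N, BM (fun θ : Sp N => c2 G j k * (H θ * ((θ : E N) j * (θ : E N) k))) :=
    fun j k => (hH.mul ((BM_coord j).mul (BM_coord k))).const_mul _
  have h3 : (fun θ => H θ * G θ) = fun θ => (av G * H θ + ∑ j, c1 G j * (H θ * (θ : E N) j)) +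
      (∑ j, ∑ k, c2 G j k * (H θ * ((θ : E N) j * (θ : E N) k))) + H θ * r3 G θ := by
    funext θ
    have e1 : ∑ j, c1 G j * (H θ * (θ : E N) j) = H θ * ∑ j, c1 G j * (θ : E N) j := by
      rw [Finset.mul_sum]
      exact Finset.sum_congr rfl fun j _ => by ring
    have e2 : ∑ j, ∑ k, c2 G j k * (H θ * ((θ : E N) j * (θ : E N) k)) =
        H θ * ∑ j, ∑ k, c2 G j k * ((θ : E N) j * (θ : E N) k) := by
      rw [Finset.mul_sum]
      refine Finset.sum_congr rfl fun j _ => ?_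
      rw [Finset.mul_sum]
      exact Finset.sum_congr rfl fun k _ => by ring
    rw [e1, e2]
    unfold r3
    ring
  rw [h3, av_add (((hH.const_mul _).add (BM.sum _ fun j _ => h1 j)).add
      (BM.sum _ fun j _ => BM.sum _ fun k _ => h2 j k)) (hH.mul hr),
    av_add ((hH.const_mul _).add (BM.sum _ fun j _ => h1 j))
      (BM.sum _ fun j _ => BM.sum _ fun k _ => h2 j k),
    av_add (hH.const_mul _) (BM.sum _ fun j _ => h1 j), av_const_mul,
    av_sum _ fun j _ => h1 j, av_sum _ fun j _ => BM.sum _ fun k _ => h2 j k]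
  congr 1
  congr 1
  · congr 1
    exact Finset.sum_congr rfl fun j _ => av_const_mul _ _
  · refine Finset.sum_congr rfl fun j _ => ?_
    rw [av_sum _ fun k _ => h2 j k]
    exact Finset.sum_congr rfl fun k _ => av_const_mul _ _

lemma quad_nonneg {c x y : ℝ} (hc : 0 < c) : 0 ≤ c * y ^ 2 + 2 * (x * y) + x ^ 2 / c := by
  have : c * y ^ 2 + 2 * (x * y) + x ^ 2 / c = (c * y + x) ^ 2 / c := by
    field_simp
    ring
  rw [this]
  positivity

theorem pf_XN (hPY : T_PY) : T_XN := by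
  intro N F ω c₁ c₂ c₃ hN hF hω hω0 h1 h2 h3
  have hN0 : (0 : ℝ) < N := by exact_mod_cast (by omega : 0 < N)
  obtain ⟨-, hrF, hr0, hr1, hr2⟩ := hPY N F hN hF
  obtain ⟨-, hrω, -, -, -⟩ := hPY N ω hN hω
  have e1 := av_expand hω hF hrF
  have e2 := av_expand hrF hω hrω
  have e3 : av (fun θ => ω θ * r3 F θ) = av (fun θ => r3 F θ * ω θ) := by
    congr 1
    funext θ
    ring
  simp only [hr0, hr1, hr2, mul_zero, Finset.sum_const_zero, add_zero, zero_add] at e2
  rw [e3, e2, hω0, mul_zero, zero_add] at e1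
  have e4 : av (fun θ => F θ * ω θ) = av (fun θ => ω θ * F θ) := by
    congr 1
    funext θ
    ring
  have a1 : ∀ j, av (fun θ => ω θ * (θ : E N) j) = c1 ω j / N := by
    intro j
    unfold c1
    field_simp
  have a2 : ∀ j k, av (fun θ => ω θ * ((θ : E N) j * (θ : E N) k)) =
      2 / (N * (N + 2)) * c2 ω j k := by
    intro j k
    unfold c2
    rw [hω0]
    have : (0 : ℝ) < (N : ℝ) + 2 := by linarith
    simp only [zero_div, ite_self, sub_zero]
    field_simp
  simp only [a1, a2] at e1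
  have b1 : 0 ≤ c₁ * n1 ω + 2 * (∑ j, c1 F j * (c1 ω j / N)) + n1 F / c₁ := by
    have : c₁ * n1 ω + 2 * (∑ j, c1 F j * (c1 ω j / N)) + n1 F / c₁ =
        (∑ j, (c₁ * c1 ω j ^ 2 + 2 * (c1 F j * c1 ω j) + c1 F j ^ 2 / c₁)) / N := by
      unfold n1
      rw [Finset.sum_add_distrib, Finset.sum_add_distrib, ← Finset.mul_sum, ← Finset.mul_sum,
        ← Finset.sum_div]
      have : ∑ j, c1 F j * (c1 ω j / N) = (∑ j, c1 F j * c1 ω j) / N := by
        rw [Finset.sum_div]
        exact Finset.sum_congr rfl fun j _ => by ring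
      rw [this]
      ring
    rw [this]
    exact div_nonneg (Finset.sum_nonneg fun j _ => quad_nonneg h1) hN0.le
  have b2 : 0 ≤ c₂ * n2 ω + 2 * (∑ j, ∑ k, c2 F j k * (2 / (N * (N + 2)) * c2 ω j k)) +
      n2 F / c₂ := by
    have : c₂ * n2 ω + 2 * (∑ j, ∑ k, c2 F j k * (2 / (N * (N + 2)) * c2 ω j k)) + n2 F / c₂ =
        2 / (N * (N + 2)) * ∑ j, ∑ k, (c₂ * c2 ω j k ^ 2 + 2 * (c2 F j k * c2 ω j k) +
          c2 F j k ^ 2 / c₂) := by
      unfold n2
      have r1 : ∑ j, ∑ k, (c₂ * c2 ω j k ^ 2 + 2 * (c2 F j k * c2 ω j k) +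
          c2 F j k ^ 2 / c₂) = c₂ * (∑ j, ∑ k, c2 ω j k ^ 2) +
          2 * (∑ j, ∑ k, c2 F j k * c2 ω j k) + (∑ j, ∑ k, c2 F j k ^ 2) / c₂ := by
        simp only [Finset.sum_add_distrib, Finset.mul_sum, Finset.sum_div]
      have r2 : ∑ j, ∑ k, c2 F j k * (2 / (N * (N + 2)) * c2 ω j k) =
          2 / (N * (N + 2)) * ∑ j, ∑ k, c2 F j k * c2 ω j k := by
        simp only [Finset.mul_sum]
        refine Finset.sum_congr rfl fun j _ => Finset.sum_congr rfl fun k _ => ?_
        ring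
      rw [r1, r2]
      ring
    rw [this]
    refine mul_nonneg (by positivity) (Finset.sum_nonneg fun j _ => Finset.sum_nonneg fun k _ =>
      quad_nonneg h2)
  have b3 : 0 ≤ c₃ * n3 ω + 2 * av (fun θ => r3 F θ * r3 ω θ) + n3 F / c₃ := by
    have : c₃ * n3 ω + 2 * av (fun θ => r3 F θ * r3 ω θ) + n3 F / c₃ =
        av (fun θ => c₃ * r3 ω θ ^ 2 + 2 * (r3 F θ * r3 ω θ) + c₃⁻¹ * r3 F θ ^ 2) := by
      rw [av_add (((hrω.pow 2).const_mul _).add ((hrF.mul hrω).const_mul _))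
          ((hrF.pow 2).const_mul _), av_add ((hrω.pow 2).const_mul _)
          ((hrF.mul hrω).const_mul _), av_const_mul, av_const_mul, av_const_mul]
      unfold n3
      ring
    rw [this]
    refine av_nonneg fun θ => ?_
    have := quad_nonneg (x := r3 F θ) (y := r3 ω θ) h3
    rwa [div_eq_inv_mul] at this
  rw [e4, e1]
  linarith

end Pool.Agent.H60.LNN
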